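import Pool.Agent.H93.ES.Targets

/-!
# Row WNT: the entropy of words near few models (MP_c59857_nt)
-/

set_option autoImplicit false

open Finset Pool.Agent.H18.MR Pool.Agent.H93.DE Pool.Agent.H6.N4D Pool.Agent.H93 Pool.Agent.H93.ES

namespace Pool.Agent.H62.ES

/-- the numbers `(A + B s) / 2 ^ s` tend to zero -/
theorem small_tail (A B ε : ℝ) (hA : 0 ≤ A) (hB : 0 ≤ B) (hε : 0 < ε) :
    ∃ s₀ : ℕ, ∀ s : ℕ, s₀ ≤ s → (A + B * s) / 2 ^ s ≤ ε := by
  have h := tendsto_pow_const_div_const_pow_of_one_lt 1 (r := (2 : ℝ)) (by norm_num)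
  have h2 : ∀ᶠ n : ℕ in Filter.atTop, (n : ℝ) ^ 1 / 2 ^ n < ε / (A + B + 1) :=
    h.eventually_lt_const (by positivity)
  obtain ⟨s₁, hs₁⟩ := Filter.eventually_atTop.1 h2
  refine ⟨max s₁ 1, fun s hs => ?_⟩
  have h3 := hs₁ s (le_trans (le_max_left _ _) hs)
  have h4 : (1 : ℝ) ≤ s := by exact_mod_cast le_trans (le_max_right _ _) hs
  rw [pow_one] at h3
  have hp : (0 : ℝ) < 2 ^ s := by positivity
  have h5 : A + B * s ≤ (A + B + 1) * s := by nlinarith
  have h6 : (A + B * s) / 2 ^ s ≤ (A + B + 1) * (s / 2 ^ s) := by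
    rw [← mul_div_assoc]
    exact div_le_div_of_nonneg_right h5 hp.le
  have h7 : (A + B + 1) * ((s : ℝ) / 2 ^ s) ≤ (A + B + 1) * (ε / (A + B + 1)) :=
    mul_le_mul_of_nonneg_left h3.le (by positivity)
  have h8 : (A + B + 1) * (ε / (A + B + 1)) = ε := by
    field_simp
  linarith

/-- the words near a net -/
noncomputable def nearNet (L : ℕ) (δ : ℝ) (𝒞 : Finset (Fin L → Bool)) : Finset (Fin L → Bool) :=
  𝒞.biUnion (fun c => (univ : Finset (Fin L → Bool)).filter (fun v =>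
    (((univ : Finset (Fin L)).filter (fun t => v t ≠ c t)).card : ℝ) ≤ δ * L))

theorem nearNet_card (h2 : T_WN2) (L : ℕ) (δ : ℝ) (𝒞 : Finset (Fin L → Bool)) (h0 : 0 < δ)
    (h1 : δ ≤ 1) :
    ((nearNet L δ 𝒞).card : ℝ) ≤ 𝒞.card * Real.exp (L * (δ + δ * Real.log (1 / δ))) := by
  have h : (nearNet L δ 𝒞).card ≤ ∑ c ∈ 𝒞, ((univ : Finset (Fin L → Bool)).filter (fun v =>
    (((univ : Finset (Fin L)).filter (fun t => v t ≠ c t)).card : ℝ) ≤ δ * L)).card :=
    Finset.card_biUnion_le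
  calc ((nearNet L δ 𝒞).card : ℝ) ≤ ((∑ c ∈ 𝒞, ((univ : Finset (Fin L → Bool)).filter (fun v =>
        (((univ : Finset (Fin L)).filter (fun t => v t ≠ c t)).card : ℝ) ≤ δ * L)).card : ℕ) : ℝ) := by
        exact_mod_cast h
    _ = ∑ c ∈ 𝒞, (((univ : Finset (Fin L → Bool)).filter (fun v =>
        (((univ : Finset (Fin L)).filter (fun t => v t ≠ c t)).card : ℝ) ≤ δ * L)).card : ℝ) := by
        push_cast; rfl
    _ ≤ ∑ _c ∈ 𝒞, Real.exp (L * (δ + δ * Real.log (1 / δ))) :=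
        Finset.sum_le_sum fun c _ => h2 L δ c h0 h1
    _ = 𝒞.card * Real.exp (L * (δ + δ * Real.log (1 / δ))) := by
        rw [Finset.sum_const, nsmul_eq_mul]

/-- Markov's inequality on the cyclic group -/
theorem unif_markov {N : ℕ} [NeZero N] (E : ZMod N → ℝ) (hE : ∀ n, 0 ≤ E n) (S : Set (ZMod N))
    (a : ℝ) (ha : 0 < a) (hS : ∀ n ∈ S, a < E n) : (unif N).P S ≤ avZ E / a := by
  classical
  have hN : (0 : ℝ) < N := by exact_mod_cast Nat.pos_of_ne_zero (NeZero.ne N)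
  have h1 : (unif N).P S = ((univ.filter (fun n => n ∈ S)).card : ℝ) / N := by
    unfold unif
    simp only
  rw [h1]
  unfold avZ
  have h2 : a * ((univ.filter (fun n => n ∈ S)).card : ℝ) ≤ ∑ n, E n := by
    calc a * ((univ.filter (fun n => n ∈ S)).card : ℝ)
        = ∑ _n ∈ univ.filter (fun n => n ∈ S), a := by
          rw [Finset.sum_const, nsmul_eq_mul, mul_comm]
      _ ≤ ∑ n ∈ univ.filter (fun n => n ∈ S), E n :=
          Finset.sum_le_sum fun n hn => (hS n (Finset.mem_filter.1 hn).2).le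
      _ ≤ ∑ n, E n := Finset.sum_le_sum_of_subset_of_nonneg (Finset.filter_subset _ _)
          fun n _ _ => hE n
  rw [div_div, div_le_div_iff₀ hN (by positivity)]
  nlinarith

/-- a number in the final estimate -/
theorem fin_num {L C δ lg e P l2 tail : ℝ} (hL : 0 < L) (hδ : 0 < δ) (he : 0 ≤ e)
    (hl2 : l2 ≤ 7 / 10) (hl2' : 69 / 100 ≤ l2) (hlg : l2 ≤ lg) (hP : P ≤ e / (4 / 5 * δ))
    (htail : (C + l2) / L ≤ tail) (ht : tail ≤ δ * lg) {H : ℝ}
    (hH : H ≤ (C + L * (δ + δ * lg)) + P * (L * l2) + l2) :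
    H / L ≤ 4 * δ * lg + e / δ := by
  have h1 : P * (L * l2) ≤ e / (4 / 5 * δ) * (L * l2) :=
    mul_le_mul_of_nonneg_right hP (mul_nonneg hL.le (by linarith))
  have h2 : H / L ≤ ((C + L * (δ + δ * lg)) + e / (4 / 5 * δ) * (L * l2) + l2) / L :=
    div_le_div_of_nonneg_right (by linarith) hL.le
  have h3 : ((C + L * (δ + δ * lg)) + e / (4 / 5 * δ) * (L * l2) + l2) / L =
      (C + l2) / L + (δ + δ * lg) + e / δ * (5 / 4 * l2) := by
    field_simp
    ring
  have h4 : e / δ * (5 / 4 * l2) ≤ e / δ * 1 :=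
    mul_le_mul_of_nonneg_left (by linarith) (by positivity)
  have h5 : δ * (69 / 100) ≤ δ * lg := mul_le_mul_of_nonneg_left (by linarith) hδ.le
  nlinarith

theorem pf_WNT (h1 : T_WN1) (h2 : T_WN2) (h3 : T_WN3) : T_WNT := by
  intro δ hδ hδ2 R
  obtain ⟨C, hC, hnet⟩ := h1 R
  have hlg : Real.log 2 ≤ Real.log (1 / δ) := by
    apply Real.log_le_log (by norm_num)
    rw [le_div_iff₀ hδ]
    linarith
  have hl2 : Real.log 2 ≤ 7 / 10 := by
    have := Real.log_two_lt_d9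
    linarith
  have hl2' : 69 / 100 ≤ Real.log 2 := by
    have := Real.log_two_gt_d9
    linarith
  have hpos : 0 < δ * Real.log (1 / δ) := mul_pos hδ (by linarith)
  have hC1 : (1 : ℝ) ≤ C := by exact_mod_cast hC
  obtain ⟨s₀, hs₀⟩ := small_tail (C * Real.log C + Real.log 2) (C * Real.log 2)
    (δ * Real.log (1 / δ))
    (add_nonneg (mul_nonneg (by linarith) (Real.log_nonneg hC1)) (by linarith))
    (mul_nonneg (by linarith) (by linarith)) hpos
  refine ⟨s₀, fun s N _ x b β E hs hb hE => ?_⟩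
  have htail := hs₀ s hs
  have hp : (0 : ℝ) < 2 ^ s := by positivity
  have hLpos : 1 ≤ 2 ^ s := Nat.one_le_two_pow
  obtain ⟨𝒞, h𝒞card, h𝒞⟩ := hnet (2 ^ s) hLpos
  have hE0 : ∀ n, 0 ≤ E n := fun n => le_trans (by positivity) (hE n)
  -- the set of words
  have hne : (nearNet (2 ^ s) δ 𝒞).Nonempty := by
    obtain ⟨c, hc, -⟩ := h𝒞 (fun _ => 0) (fun _ => 0) (by simp)
    refine ⟨c, ?_⟩
    unfold nearNet
    rw [Finset.mem_biUnion]
    refine ⟨c, hc, ?_⟩
    rw [Finset.mem_filter]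
    refine ⟨Finset.mem_univ _, ?_⟩
    simp only [ne_eq, not_true_eq_false, Finset.filter_false, Finset.card_empty, Nat.cast_zero]
    positivity
  have hmem : ∀ n, E n ≤ 4 / 5 * δ → wd x (2 ^ s) n ∈ nearNet (2 ^ s) δ 𝒞 := by
    intro n hn
    obtain ⟨c, hc, hcv⟩ := h𝒞 (b n) (β n) (hb n)
    have hv := hcv (wd x (2 ^ s) n)
    unfold nearNet
    rw [Finset.mem_biUnion]
    refine ⟨c, hc, ?_⟩
    rw [Finset.mem_filter]
    refine ⟨Finset.mem_univ _, le_trans hv ?_⟩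
    have hsum : ∑ t : Fin (2 ^ s), ‖(sg (wd x (2 ^ s) n t) : ℂ) -
        ∑ r ∈ range R, b n r * ee (β n r * (t : ℕ))‖ ^ 2 =
        ∑ t ∈ range (2 ^ s), ‖(ltr x n t : ℂ) - ∑ r ∈ range R, b n r * ee (β n r * t)‖ ^ 2 := by
      rw [Finset.sum_range]
      rfl
    rw [hsum]
    have h5 := hE n
    rw [div_le_iff₀ hp] at h5
    have h6 : E n * 2 ^ s ≤ 4 / 5 * δ * 2 ^ s := mul_le_mul_of_nonneg_right hn hp.le
    push_cast
    linarith
  have hP : (unif N).P {ω | wd x (2 ^ s) ω ∉ nearNet (2 ^ s) δ 𝒞} ≤ avZ E / (4 / 5 * δ) := by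
    apply unif_markov E hE0 _ _ (by positivity)
    intro n hn
    by_contra hcon
    exact hn (hmem n (not_lt.1 hcon))
  have hent := h3 (ZMod N) (Fin (2 ^ s) → Bool) (unif N) (fun n => wd x (2 ^ s) n)
    (nearNet (2 ^ s) δ 𝒞) hne
  have hcardB : Real.log (Fintype.card (Fin (2 ^ s) → Bool)) = (2 : ℝ) ^ s * Real.log 2 := by
    rw [Fintype.card_fun, Fintype.card_bool, Fintype.card_fin]
    push_cast
    rw [Real.log_pow]
    push_cast
    ring
  rw [hcardB] at hent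
  have hcard := nearNet_card h2 (2 ^ s) δ 𝒞 hδ (by linarith)
  have hTpos : (0 : ℝ) < ((nearNet (2 ^ s) δ 𝒞).card : ℝ) := by
    exact_mod_cast hne.card_pos
  have hCL : (0 : ℝ) < ((C * 2 ^ s : ℕ) : ℝ) := by
    exact_mod_cast Nat.mul_pos hC (by positivity)
  have hlogT : Real.log ((nearNet (2 ^ s) δ 𝒞).card : ℝ) ≤
      (C * Real.log C + C * Real.log 2 * s) + 2 ^ s * (δ + δ * Real.log (1 / δ)) := by
    have h5 : ((nearNet (2 ^ s) δ 𝒞).card : ℝ) ≤
        ((C * 2 ^ s : ℕ) : ℝ) ^ C * Real.exp ((2 ^ s : ℕ) * (δ + δ * Real.log (1 / δ))) :=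
      le_trans hcard (mul_le_mul_of_nonneg_right h𝒞card (Real.exp_pos _).le)
    have h6 := Real.log_le_log hTpos h5
    rw [Real.log_mul (by positivity) (Real.exp_pos _).ne', Real.log_exp, Real.log_pow] at h6
    have h7 : Real.log ((C * 2 ^ s : ℕ) : ℝ) = Real.log C + s * Real.log 2 := by
      push_cast
      rw [Real.log_mul (by positivity) (by positivity), Real.log_pow]
    rw [h7] at h6
    push_cast at h6
    linarith
  have havZ : 0 ≤ avZ E := by
    unfold avZ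
    exact div_nonneg (Finset.sum_nonneg fun n _ => hE0 n) (Nat.cast_nonneg _)
  refine fin_num (C := C * Real.log C + C * Real.log 2 * s)
    (tail := (C * Real.log C + Real.log 2 + C * Real.log 2 * s) / 2 ^ s) hp hδ havZ hl2 hl2' hlg hP
    ?_ htail ?_
  · apply div_le_div_of_nonneg_right _ hp.le
    linarith
  · linarith

end Pool.Agent.H62.ES
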